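import Pool.Agent.W528.ZC.Stm

/-! Project ZC: conjugation and the derivations. -/

set_option autoImplicit false

namespace Pool.Agent.W240.ZC.CJ

open MvPolynomial
open Pool.Agent.W528.ZC

variable {K : Type} [Field K] {ι : Type} [Fintype ι] [DecidableEq ι]

/-- the generic matrix -/
noncomputable def XM (K ι : Type) [Field K] : Matrix ι ι (MvPolynomial (ι × ι) K) :=
  Matrix.of fun i j => X (i, j)

/-- constant matrices -/
noncomputable def cM (a : Matrix ι ι K) : Matrix ι ι (MvPolynomial (ι × ι) K) :=
  a.map (C : K →+* MvPolynomial (ι × ι) K)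

theorem cM_mul (a b : Matrix ι ι K) : cM (a * b) = cM a * cM b := by
  unfold cM
  exact Matrix.map_mul

theorem cM_one : cM (1 : Matrix ι ι K) = 1 := by
  unfold cM
  exact Matrix.map_one _ (map_zero _) (map_one _)

theorem sub_X (a b : Matrix ι ι K) : (XM K ι).map (sub a b) = cM a * XM K ι * cM b := by
  ext i j : 1
  rw [Matrix.map_apply, Matrix.mul_apply]
  simp only [XM, Matrix.of_apply, sub, aeval_X, Matrix.mul_apply, cM, Matrix.map_apply,
    Finset.sum_mul]
  rw [Finset.sum_comm]
  refine Finset.sum_congr rfl fun k _ => Finset.sum_congr rfl fun l _ => ?_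
  rw [C_mul]
  ring

theorem D_X (y : Matrix ι ι K) : (XM K ι).map (D y) = XM K ι * cM y := by
  ext i j : 1
  rw [Matrix.map_apply, Matrix.mul_apply]
  simp only [XM, Matrix.of_apply, D, mkDerivation_X, cM, Matrix.map_apply]
  exact Finset.sum_congr rfl fun l _ => mul_comm _ _

theorem sub_C (a b : Matrix ι ι K) (c : Matrix ι ι K) : (cM c).map (sub a b) = cM c := by
  ext i j : 1
  simp only [cM, Matrix.map_apply, sub]
  exact algHom_C _ _

theorem D_Cmul (y a : Matrix ι ι K) (N : Matrix ι ι (MvPolynomial (ι × ι) K)) :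
    (cM a * N).map (D y) = cM a * N.map (D y) := by
  ext i j : 1
  simp only [cM, Matrix.map_apply, Matrix.mul_apply, map_sum]
  refine Finset.sum_congr rfl fun l _ => ?_
  rw [← smul_eq_C_mul, ← smul_eq_C_mul, Derivation.map_smul]

theorem D_mulC (y a : Matrix ι ι K) (N : Matrix ι ι (MvPolynomial (ι × ι) K)) :
    (N * cM a).map (D y) = N.map (D y) * cM a := by
  ext i j : 1
  simp only [cM, Matrix.map_apply, Matrix.mul_apply, map_sum]
  refine Finset.sum_congr rfl fun l _ => ?_
  rw [mul_comm, ← smul_eq_C_mul, mul_comm, ← smul_eq_C_mul, Derivation.map_smul]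

theorem sub_mul (a b : Matrix ι ι K) (M N : Matrix ι ι (MvPolynomial (ι × ι) K)) :
    (M * N).map (sub a b) = M.map (sub a b) * N.map (sub a b) :=
  Matrix.map_mul (f := (sub a b : MvPolynomial (ι × ι) K →+* MvPolynomial (ι × ι) K))

theorem keyX (a b y : Matrix ι ι K) (hba : b * a = 1) (p : ι × ι) :
    D y (sub a b (X p)) = sub a b (D (a * y * b) (X p)) := by
  have h1 : ((XM K ι).map (sub a b)).map (D y) = ((XM K ι).map (D (a * y * b))).map (sub a b) := by
    rw [sub_X, D_mulC, D_Cmul, D_X, D_X, sub_mul, sub_X, sub_C]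
    have h2 : b * (a * y * b) = y * b := by
      rw [← mul_assoc, ← mul_assoc, hba, one_mul]
    rw [mul_assoc (cM a * XM K ι), ← cM_mul, h2, cM_mul]
    simp only [mul_assoc]
  exact congrFun (congrFun h1 p.1) p.2

theorem main : Pool.Agent.W528.ZC.CJ := by
  intro K _ ι _ _ a b y hab hba f
  constructor
  · induction f using MvPolynomial.induction_on with
    | C c =>
      have h1 : sub a b (C c) = C c := algHom_C _ _
      have h2 : ∀ z : Matrix ι ι K, D z (C c) = 0 := fun z => Derivation.map_algebraMap _ _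
      rw [h1, h2, h2, map_zero]
    | add f g hf hg => rw [map_add, map_add, map_add, map_add, hf, hg]
    | mul_X f p hf =>
      rw [map_mul, Derivation.leibniz, Derivation.leibniz, map_add, smul_eq_mul, smul_eq_mul,
        smul_eq_mul, smul_eq_mul, map_mul, map_mul, hf, keyX a b y hba]
  · have h1 : ((XM K ι).map (sub a b)).map (sub b a) = XM K ι := by
      rw [sub_X, sub_mul, sub_mul, sub_C, sub_C, sub_X]
      have : cM a * (cM b * XM K ι * cM a) * cM b = cM (a * b) * XM K ι * cM (a * b) := by
        rw [cM_mul]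
        simp only [mul_assoc]
      rw [this, hab, cM_one, one_mul, mul_one]
    have h2 : (sub b a).comp (sub a b) = AlgHom.id K (MvPolynomial (ι × ι) K) := by
      refine MvPolynomial.algHom_ext fun p => ?_
      exact congrFun (congrFun h1 p.1) p.2
    exact DFunLike.congr_fun h2 f

end Pool.Agent.W240.ZC.CJ
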